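import Pool.Agent.W84.FP.Defs
import Pool.Agent.W803.GA.Sect

set_option autoImplicit false

/-! FP-GAPS : gaps between directions. -/

namespace Pool.Agent.W337.FP

open Finset Filter
open Pool.Agent.H376R2.MR Pool.Agent.W78.GA Pool.Agent.W78.GC Pool.Agent.W803.GA Pool.Agent.W84.FP

lemma hD : (0 : ℤ) ^ 2 < 4 * 1 := by norm_num

lemma mem_cb {col : Gi → Prop} {X : ℝ} {z : Gi} :
    z ∈ cball col X ↔ z ∈ pball 0 1 X ∧ col z := by
  classical
  unfold cball
  rw [mem_filter]

lemma dt_sin (v u : Gi) : (dt v u : ℝ) = ‖tc v‖ * ‖tc u‖ * Real.sin (ang u - ang v) := by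
  rw [← dt_eq_sin hD]
  have h : Real.sqrt (4 * ((1 : ℤ) : ℝ) - ((0 : ℤ) : ℝ) ^ 2) = 2 := by
    have : (4 * ((1 : ℤ) : ℝ) - ((0 : ℤ) : ℝ) ^ 2) = 2 ^ 2 := by norm_num
    rw [this]; exact Real.sqrt_sq (by norm_num)
  rw [h]; ring

lemma ip_cos (v u : Gi) : (ip v u : ℝ) = ‖tc v‖ * ‖tc u‖ * Real.cos (ang u - ang v) := by
  rw [← ip_eq_cos hD]
  push_cast; ring

lemma ang_lo (z : Gi) : -Real.pi < ang z := Complex.neg_pi_lt_arg _
lemma ang_hi (z : Gi) : ang z ≤ Real.pi := Complex.arg_le_pi _

/-- nonnegative determinant from the order of the angles -/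
lemma dt_nonneg_of {v u : Gi} (h : ang v ≤ ang u) (h2 : ang u - ang v ≤ Real.pi) :
    0 ≤ dt v u := by
  have h3 : (0 : ℝ) ≤ (dt v u : ℝ) := by
    rw [dt_sin]
    have := Real.sin_nonneg_of_nonneg_of_le_pi (sub_nonneg.2 h) h2
    positivity
  exact_mod_cast h3

lemma im_eq (z : Gi) : (z.im : ℝ) = ‖tc z‖ * Real.sin (ang z) := by
  have h : (tc z).im = ‖tc z‖ * Real.sin (ang z) := by
    unfold ang
    rw [Complex.sin_arg]
    by_cases h0 : ‖tc z‖ = 0
    · have : tc z = 0 := norm_eq_zero.1 h0
      rw [this]; simp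
    · field_simp
  rw [← h]
  unfold tc
  have h : Real.sqrt (4 * ((1 : ℤ) : ℝ) - ((0 : ℤ) : ℝ) ^ 2) = 2 := by
    have : (4 * ((1 : ℤ) : ℝ) - ((0 : ℤ) : ℝ) ^ 2) = 2 ^ 2 := by norm_num
    rw [this]; exact Real.sqrt_sq (by norm_num)
  simp only [h]; ring

lemma ang_inj {X : ℝ} (hX : 1 ≤ X) {z u : Gi} (hz : z ∈ pball 0 1 X) (hu : u ∈ pball 0 1 X)
    (h : ang z = ang u) : z = u := by
  by_contra hne
  have h1 := separated hD hX hz hu (Ne.symm hne) 0
  rw [h] at h1
  simp at h1
  have h2 : 0 < X⁻¹ * 2⁻¹ := by positivity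
  linarith

open scoped Classical in
/-- the elements without a successor at distance less than `g` -/
noncomputable def B0 (A : Finset Gi) (g : ℝ) : Finset Gi :=
  A.filter (fun z => ∀ z1 ∈ A, ¬ (ang z < ang z1 ∧ ang z1 < ang z + g))

lemma card_B0 {X : ℝ} (hX : 1 ≤ X) {g : ℝ} (hg : 0 < g) (A : Finset Gi)
    (hA : A ⊆ pball 0 1 X) : ((B0 A g).card : ℝ) ≤ 2 * Real.pi / g + 1 := by
  classical
  have hinj : Set.InjOn (fun z : Gi => ⌊(ang z + Real.pi) / g⌋₊) (B0 A g : Set Gi) := by
    have key : ∀ z u : Gi, z ∈ B0 A g → u ∈ B0 A g →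
        ⌊(ang z + Real.pi) / g⌋₊ = ⌊(ang u + Real.pi) / g⌋₊ → ¬ ang z < ang u := by
      intro z u hz hu h hlt
      unfold B0 at hz hu
      rw [mem_filter] at hz hu
      apply hz.2 u hu.1
      refine ⟨hlt, ?_⟩
      have h1 : (⌊(ang z + Real.pi) / g⌋₊ : ℝ) ≤ (ang z + Real.pi) / g :=
        Nat.floor_le (div_nonneg (by linarith [ang_lo z]) hg.le)
      have h2 : (ang u + Real.pi) / g < (⌊(ang u + Real.pi) / g⌋₊ : ℝ) + 1 :=
        Nat.lt_floor_add_one _
      rw [← h] at h2
      have h3 : (ang u + Real.pi) / g < (ang z + Real.pi) / g + 1 := by linarith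
      rw [div_lt_iff₀ hg, add_mul, div_mul_cancel₀ _ hg.ne'] at h3
      linarith
    intro z hz u hu h
    have hz' : z ∈ B0 A g := hz
    have hu' : u ∈ B0 A g := hu
    have h1 := key z u hz' hu' h
    have h2 := key u z hu' hz' h.symm
    have h3 : ang z = ang u := le_antisymm (not_lt.1 h2) (not_lt.1 h1)
    exact ang_inj hX (hA (mem_of_mem_filter z hz')) (hA (mem_of_mem_filter u hu')) h3
  have hsub : (B0 A g).image (fun z : Gi => ⌊(ang z + Real.pi) / g⌋₊) ⊆
      range (⌊2 * Real.pi / g⌋₊ + 1) := by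
    intro n hn
    rw [mem_image] at hn
    obtain ⟨z, _, rfl⟩ := hn
    rw [mem_range, Nat.lt_succ_iff]
    apply Nat.floor_le_floor
    exact div_le_div_of_nonneg_right (by linarith [ang_hi z]) hg.le
  have h1 := card_le_card hsub
  rw [card_image_of_injOn hinj, card_range] at h1
  have h2 : ((B0 A g).card : ℝ) ≤ (⌊2 * Real.pi / g⌋₊ : ℝ) + 1 := by exact_mod_cast h1
  have h3 : (⌊2 * Real.pi / g⌋₊ : ℝ) ≤ 2 * Real.pi / g := Nat.floor_le (by positivity)
  linarith

theorem gaps : S_GAPS := by
  classical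
  refine ⟨10, by norm_num, ?_⟩
  intro q X h B hh hhX hB
  have hh' : (1 : ℝ) ≤ h := by exact_mod_cast hh
  have hX : 1 ≤ X := by linarith
  have hX0 : 0 < X := by linarith
  set g : ℝ := h / X with hg
  have hg0 : 0 < g := by positivity
  have hg2 : g ≤ 1 / 2 := by
    rw [hg, div_le_iff₀ hX0]; linarith
  set A := cball (c1 q) X with hAdef
  have hAs : A ⊆ pball 0 1 X := fun z hz => (mem_cb.1 hz).1
  refine ⟨insert (⟨-1, 0⟩ : Gi) (B0 A g), ?_, ?_, ?_⟩
  · rw [mem_insert]
    rintro (h0 | h0)
    · have := congrArg QuadraticAlgebra.re h0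
      simp at this
    · have h1 := hAs (mem_of_mem_filter _ h0)
      have h2 := norm_pos_of_pball hD h1
      have h3 : tc (0 : Gi) = 0 := by
        apply Complex.ext <;> simp [tc]
      rw [h3] at h2; simp at h2
  · have h1 := card_B0 hX hg0 A hAs
    have h2 : ((insert (⟨-1, 0⟩ : Gi) (B0 A g)).card : ℝ) ≤ (B0 A g).card + 1 := by
      exact_mod_cast card_insert_le _ _
    have h3 : 2 * Real.pi / g = 2 * Real.pi * (X / h) := by
      rw [hg]; field_simp
    rw [h3] at h1
    have h4 : Real.pi < 4 := Real.pi_lt_four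
    have h5 : 0 < X / h := by positivity
    nlinarith
  · intro B' hB1 hB2 z z' hz hz' hdt hgl
    have hzp := hAs hz
    have hzp' := hAs hz'
    have nz := norm_pos_of_pball hD hzp
    have nz' := norm_pos_of_pball hD hzp'
    have hs : 0 < Real.sin (ang z' - ang z) := by
      have h1 : (0 : ℝ) < (dt z z' : ℝ) := by exact_mod_cast hdt
      rw [dt_sin] at h1
      have h2 : 0 < ‖tc z‖ * ‖tc z'‖ := mul_pos nz nz'
      by_contra hc
      push Not at hc
      have h3 := mul_nonpos_of_nonneg_of_nonpos h2.le hc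
      linarith
    rcases le_or_gt (ang z') (ang z) with hle | hlt
    · -- the sector contains the cut
      refine ⟨⟨-1, 0⟩, hB2 (mem_insert_self _ _), ?_, ?_⟩
      · have h1 : Real.pi < ang z - ang z' := by
          by_contra hc
          push Not at hc
          have h2 := Real.sin_nonneg_of_nonneg_of_le_pi (sub_nonneg.2 hle) hc
          have h3 : Real.sin (ang z' - ang z) = -Real.sin (ang z - ang z') := by
            rw [← Real.sin_neg]; congr 1; ring
          linarith
        have h2 : 0 ≤ ang z := by linarith [ang_lo z']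
        have h3 : (0 : ℝ) ≤ (z.im : ℝ) := by
          rw [im_eq]
          have := Real.sin_nonneg_of_nonneg_of_le_pi h2 (ang_hi z)
          positivity
        have h4 : 0 ≤ z.im := by exact_mod_cast h3
        unfold dt; simp; exact h4
      · have h1 : Real.pi < ang z - ang z' := by
          by_contra hc
          push Not at hc
          have h2 := Real.sin_nonneg_of_nonneg_of_le_pi (sub_nonneg.2 hle) hc
          have h3 : Real.sin (ang z' - ang z) = -Real.sin (ang z - ang z') := by
            rw [← Real.sin_neg]; congr 1; ring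
          linarith
        have h2 : ang z' ≤ 0 := by linarith [ang_hi z]
        have h3 : (z'.im : ℝ) ≤ 0 := by
          rw [im_eq]
          have := Real.sin_nonpos_of_nonpos_of_neg_pi_le h2 (ang_lo z').le
          exact mul_nonpos_of_nonneg_of_nonpos (norm_nonneg _) this
        have h4 : z'.im ≤ 0 := by exact_mod_cast h3
        unfold dt; simp; exact h4
    · have hpi : ang z' - ang z < Real.pi := by
        by_contra hc
        push Not at hc
        have h1 : ang z' - ang z ≤ 2 * Real.pi := by linarith [ang_hi z', ang_lo z]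
        have h2 : 0 ≤ Real.sin (2 * Real.pi - (ang z' - ang z)) :=
          Real.sin_nonneg_of_nonneg_of_le_pi (by linarith) (by linarith)
        rw [Real.sin_two_pi_sub] at h2
        linarith
      -- pairs of the sector
      set S : Finset (Gi × Gi) := (A ×ˢ A).filter (fun e => ang z ≤ ang e.1 ∧ ang e.1 < ang e.2 ∧
        ang e.2 ≤ ang z' ∧ gl e.1 ≠ gl e.2) with hS
      have hne : S.Nonempty := ⟨(z, z'), by
        rw [hS, mem_filter, mem_product]
        exact ⟨⟨hz, hz'⟩, le_refl _, hlt, le_refl _, hgl⟩⟩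
      obtain ⟨⟨w, w'⟩, hw, hmin⟩ := S.exists_min_image (fun e => ang e.2 - ang e.1) hne
      rw [hS, mem_filter, mem_product] at hw
      obtain ⟨⟨hwA, hwA'⟩, h1, h2, h3, h4⟩ := hw
      simp only at hwA hwA' h1 h2 h3 h4
      have hno : ∀ y ∈ A, ¬ (ang w < ang y ∧ ang y < ang w') := by
        rintro y hy ⟨ha, hb⟩
        by_cases hy1 : gl w = gl y
        · have hm := hmin (y, w') (by
            rw [hS, mem_filter, mem_product]
            refine ⟨⟨hy, hwA'⟩, by simp only; linarith, hb, h3, ?_⟩
            simp only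
            rw [← hy1]; exact h4)
          simp only at hm
          linarith
        · have hm := hmin (w, y) (by
            rw [hS, mem_filter, mem_product]
            exact ⟨⟨hwA, hy⟩, h1, ha, by simp only; linarith, hy1⟩)
          simp only at hm
          linarith
      have sec : ∀ y : Gi, ang z ≤ ang y → ang y ≤ ang z' → 0 ≤ dt z y ∧ 0 ≤ dt y z' := by
        intro y ha hb
        exact ⟨dt_nonneg_of ha (by linarith), dt_nonneg_of hb (by linarith)⟩
      by_cases hwB : w ∈ B0 A g
      · exact ⟨w, hB2 (mem_insert_of_mem hwB), sec w h1 (by linarith)⟩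
      · have h5 : ∃ z1 ∈ A, ang w < ang z1 ∧ ang z1 < ang w + g := by
          by_contra hc
          apply hwB
          unfold B0
          rw [mem_filter]
          refine ⟨hwA, fun z1 hz1 hcc => hc ⟨z1, hz1, hcc⟩⟩
        obtain ⟨z1, hz1, h6, h7⟩ := h5
        have h8 : ang w' ≤ ang z1 := by
          by_contra hc
          push Not at hc
          exact hno z1 hz1 ⟨h6, hc⟩
        have h9 : 0 < ang w' - ang w := by linarith
        have h10 : ang w' - ang w < g := by linarith
        have nw := norm_pos_of_pball hD (hAs hwA)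
        have nw' := norm_pos_of_pball hD (hAs hwA')
        have lw := norm_le_sqrt hD (hAs hwA)
        have lw' := norm_le_sqrt hD (hAs hwA')
        have h11 : ‖tc w‖ * ‖tc w'‖ ≤ X := by
          calc ‖tc w‖ * ‖tc w'‖ ≤ Real.sqrt X * Real.sqrt X :=
                mul_le_mul lw lw' nw'.le (Real.sqrt_nonneg _)
            _ = X := Real.mul_self_sqrt hX0.le
        have hpi3 := Real.pi_gt_three
        have h12 : 0 < dt w w' := by
          have h13 : (0 : ℝ) < (dt w w' : ℝ) := by
            rw [dt_sin]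
            have := Real.sin_pos_of_pos_of_lt_pi h9 (by linarith)
            positivity
          exact_mod_cast h13
        have h13 : dt w w' ≤ h := by
          have h14 : (dt w w' : ℝ) ≤ h := by
            rw [dt_sin]
            have h15 : Real.sin (ang w' - ang w) ≤ g := (Real.sin_le h9.le).trans h10.le
            have h16 : 0 ≤ Real.sin (ang w' - ang w) :=
              Real.sin_nonneg_of_nonneg_of_le_pi h9.le (by linarith)
            calc ‖tc w‖ * ‖tc w'‖ * Real.sin (ang w' - ang w) ≤ X * g :=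
                  mul_le_mul h11 h15 h16 hX0.le
              _ = h := by rw [hg]; field_simp
          exact_mod_cast h14
        have h14 : 0 < ip w w' := by
          have h15 : (0 : ℝ) < (ip w w' : ℝ) := by
            rw [ip_cos]
            have := Real.cos_pos_of_mem_Ioo (x := ang w' - ang w)
              ⟨by linarith, by linarith⟩
            positivity
          exact_mod_cast h15
        rcases hB w w' hwA hwA' h4 h12 h13 h14 with h15 | h15
        · exact ⟨w, hB1 h15, sec w h1 (by linarith)⟩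
        · exact ⟨w', hB1 h15, sec w' (by linarith) h3⟩

end Pool.Agent.W337.FP
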